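import Mathlib

/-!
# The chromatic number of distance powers of the hypercube for large distances

Proof. Lower bounds: a colour class is a set of subsets with pairwise distances at least `d + 1`. Summing the
distances of all pairs coordinate by coordinate, three such sets force `3 (d + 1) ≤ 2 n`, and five force
`10 (d + 1) ≤ 6 n`. Upper bounds: cosets of the code `{∅, S}` and of the code `{∅, U, V, U ∆ V}`, where `U` and
`V` are the complements of two of three disjoint sets of almost equal size.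
-/

set_option autoImplicit false

open scoped symmDiff

namespace Pool.Agent.Results.MP_7d5fe8_co.LargeDistances

/-- The graph `Q_n^d`: the vertices are the subsets of a set with `n` elements, and two distinct subsets are
adjacent if and only if their symmetric difference has at most `d` elements. -/
def Q (n d : ℕ) : SimpleGraph (Finset (Fin n)) where
  Adj x y := x ≠ y ∧ (x ∆ y).card ≤ d
  symm := ⟨fun x y h => ⟨h.1.symm, by rw [symmDiff_comm]; exact h.2⟩⟩
  loopless := ⟨fun x h => h.1 rfl⟩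

theorem ind {n : ℕ} (i : Fin n) (x y : Finset (Fin n)) :
    (if i ∈ x ∆ y then (1 : ℤ) else 0) = (if i ∈ x then 1 else 0) + (if i ∈ y then 1 else 0) -
      2 * ((if i ∈ x then 1 else 0) * (if i ∈ y then 1 else 0)) := by
  by_cases h1 : i ∈ x <;> by_cases h2 : i ∈ y <;> simp [Finset.mem_symmDiff, h1, h2]

theorem col {n : ℕ} (T : Finset (Finset (Fin n))) (i : Fin n) :
    ∑ x ∈ T, ∑ y ∈ T, (if i ∈ x ∆ y then (1 : ℤ) else 0) =
      2 * (∑ x ∈ T, if i ∈ x then (1 : ℤ) else 0) *
        (T.card - ∑ x ∈ T, if i ∈ x then (1 : ℤ) else 0) := by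
  simp_rw [ind]
  simp only [Finset.sum_sub_distrib, Finset.sum_add_distrib, Finset.sum_const, ← Finset.mul_sum,
    ← Finset.sum_mul, nsmul_eq_mul]
  ring

theorem card_eq {n : ℕ} (x : Finset (Fin n)) :
    (x.card : ℤ) = ∑ i : Fin n, if i ∈ x then (1 : ℤ) else 0 := by
  simp

theorem total {n : ℕ} (T : Finset (Finset (Fin n))) (m : ℤ)
    (hm : ∀ a : ℤ, 2 * a * (T.card - a) ≤ m) :
    ∑ x ∈ T, ∑ y ∈ T, ((x ∆ y).card : ℤ) ≤ n * m := by
  have h1 : ∑ x ∈ T, ∑ y ∈ T, ((x ∆ y).card : ℤ) =
      ∑ i : Fin n, ∑ x ∈ T, ∑ y ∈ T, (if i ∈ x ∆ y then (1 : ℤ) else 0) := by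
    have h2 : ∀ x ∈ T, ∑ y ∈ T, ((x ∆ y).card : ℤ) =
        ∑ i : Fin n, ∑ y ∈ T, (if i ∈ x ∆ y then (1 : ℤ) else 0) := by
      intro x _
      rw [Finset.sum_comm (s := Finset.univ)]
      exact Finset.sum_congr rfl fun y _ => card_eq _
    rw [Finset.sum_congr rfl h2, Finset.sum_comm]
  rw [h1]
  calc ∑ i : Fin n, ∑ x ∈ T, ∑ y ∈ T, (if i ∈ x ∆ y then (1 : ℤ) else 0)
      ≤ ∑ _i : Fin n, m := Finset.sum_le_sum fun i _ => by rw [col]; exact hm _
    _ = n * m := by simp

theorem lower {n : ℕ} (T : Finset (Finset (Fin n))) (e : ℕ)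
    (h : ∀ x ∈ T, ∀ y ∈ T, x ≠ y → e ≤ (x ∆ y).card) :
    (T.card : ℤ) * ((T.card - 1) * e) ≤ ∑ x ∈ T, ∑ y ∈ T, ((x ∆ y).card : ℤ) := by
  have h1 : ∀ x ∈ T, ((T.card : ℤ) - 1) * e ≤ ∑ y ∈ T, ((x ∆ y).card : ℤ) := by
    intro x hx
    have h2 : ((T.erase x).card : ℤ) = T.card - 1 := by
      rw [Finset.card_erase_of_mem hx]
      have := Finset.card_pos.2 ⟨x, hx⟩
      omega
    calc ((T.card : ℤ) - 1) * e = ∑ _y ∈ T.erase x, (e : ℤ) := by
          rw [Finset.sum_const, nsmul_eq_mul, h2]
      _ ≤ ∑ y ∈ T.erase x, ((x ∆ y).card : ℤ) := Finset.sum_le_sum fun y hy => by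
          exact_mod_cast h x hx y (Finset.mem_of_mem_erase hy) (Finset.ne_of_mem_erase hy).symm
      _ ≤ ∑ y ∈ T, ((x ∆ y).card : ℤ) :=
          Finset.sum_le_sum_of_subset_of_nonneg (Finset.erase_subset _ _)
            fun _ _ _ => by positivity
  calc (T.card : ℤ) * ((T.card - 1) * e) = ∑ _x ∈ T, ((T.card : ℤ) - 1) * e := by
        rw [Finset.sum_const, nsmul_eq_mul]
    _ ≤ _ := Finset.sum_le_sum h1

/-- three or five sets with large distances -/
theorem code {n : ℕ} (T : Finset (Finset (Fin n))) (e : ℕ)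
    (h : ∀ x ∈ T, ∀ y ∈ T, x ≠ y → e ≤ (x ∆ y).card) :
    (2 * n < 3 * e → T.card ≤ 2) ∧ (3 * n < 5 * e → T.card ≤ 4) := by
  constructor
  · intro hn
    by_contra hc
    obtain ⟨U, hU, hU3⟩ := Finset.exists_subset_card_eq (s := T) (n := 3) (by omega)
    have h1 := lower U e fun x hx y hy => h x (hU hx) y (hU hy)
    have h2 := total U 4 (by
      intro a
      rw [hU3]
      have : 0 ≤ (a - 1) * (a - 2) := by
        rcases le_or_gt a 1 with h | h
        · exact mul_nonneg_of_nonpos_of_nonpos (by omega) (by omega)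
        · exact mul_nonneg (by omega) (by omega)
      push_cast
      nlinarith)
    rw [hU3] at h1
    push_cast at h1
    omega
  · intro hn
    by_contra hc
    obtain ⟨U, hU, hU3⟩ := Finset.exists_subset_card_eq (s := T) (n := 5) (by omega)
    have h1 := lower U e fun x hx y hy => h x (hU hx) y (hU hy)
    have h2 := total U 12 (by
      intro a
      rw [hU3]
      have : 0 ≤ (a - 2) * (a - 3) := by
        rcases le_or_gt a 2 with h | h
        · exact mul_nonneg_of_nonpos_of_nonpos (by omega) (by omega)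
        · exact mul_nonneg (by omega) (by omega)
      push_cast
      nlinarith)
    rw [hU3] at h1
    push_cast at h1
    omega

/-- the lower bound -/
theorem chi_lower {n d M : ℕ} (hM : ∀ T : Finset (Finset (Fin n)),
    (∀ x ∈ T, ∀ y ∈ T, x ≠ y → d + 1 ≤ (x ∆ y).card) → T.card ≤ M) (m : ℕ)
    (hm : (Q n d).Colorable m) : 2 ^ n ≤ M * m := by
  classical
  obtain ⟨C⟩ := hm
  have h1 := Finset.card_le_mul_card_image (f := C) (Finset.univ : Finset (Finset (Fin n))) M
    (fun c _ => hM _ (by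
      intro x hx y hy hxy
      by_contra hlt
      have h2 : (Q n d).Adj x y := ⟨hxy, by omega⟩
      exact C.valid h2 ((Finset.mem_filter.1 hx).2.trans (Finset.mem_filter.1 hy).2.symm)))
  have h3 : (Finset.univ : Finset (Finset (Fin n))).card = 2 ^ n := by
    rw [Finset.card_univ, Fintype.card_finset, Fintype.card_fin]
  have h4 : (Finset.univ.image C).card ≤ m := by
    have := Finset.card_le_univ (Finset.univ.image C)
    rwa [Fintype.card_fin] at this
  rw [h3] at h1
  exact h1.trans (Nat.mul_le_mul_left _ h4)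

/-- a colouring given by representatives -/
theorem colorable_of {n d : ℕ} (φ : Finset (Fin n) → Finset (Fin n))
    (P : Finset (Finset (Fin n))) (h1 : ∀ x, φ x ∈ P)
    (h2 : ∀ x y, x ≠ y → φ x = φ y → d < (x ∆ y).card) : (Q n d).Colorable P.card := by
  have C : (Q n d).Coloring P := SimpleGraph.Coloring.mk (fun x => ⟨φ x, h1 x⟩) (by
    intro x y h he
    have h3 := h2 x y h.1 (congrArg Subtype.val he)
    have h4 := h.2
    omega)
  have h3 := C.colorable
  rwa [Fintype.card_coe] at h3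

theorem diff_eq {n : ℕ} {x y u v : Finset (Fin n)} (h : x ∆ u = y ∆ v) : x ∆ y = u ∆ v := by
  ext i
  have h1 := Finset.ext_iff.1 h i
  simp only [Finset.mem_symmDiff] at *
  tauto

/-- the upper bound for one codeword -/
theorem chi_upper1 {n d : ℕ} (hd : d < n) : (Q n d).Colorable (2 ^ (n - 1)) := by
  classical
  let i₀ : Fin n := ⟨0, by omega⟩
  have h := colorable_of (n := n) (d := d)
    (fun x => x ∆ (if i₀ ∈ x then Finset.univ else ∅)) (Finset.univ.erase i₀).powerset ?_ ?_
  · rwa [Finset.card_powerset, Finset.card_erase_of_mem (Finset.mem_univ _), Finset.card_univ,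
      Fintype.card_fin] at h
  · intro x
    rw [Finset.mem_powerset, Finset.subset_erase]
    refine ⟨Finset.subset_univ _, ?_⟩
    by_cases h : i₀ ∈ x <;> simp [Finset.mem_symmDiff, h]
  · intro x y hxy he
    have h1 := diff_eq he
    by_cases hx : i₀ ∈ x <;> by_cases hy : i₀ ∈ y <;> simp only [hx, hy, if_true, if_false] at h1
    · exact absurd (symmDiff_eq_bot.1 (h1.trans (symmDiff_self _))) hxy
    · rw [h1, show (Finset.univ : Finset (Fin n)) ∆ ∅ = Finset.univ from symmDiff_bot _,
        Finset.card_univ, Fintype.card_fin]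
      exact hd
    · rw [h1, show ∅ ∆ (Finset.univ : Finset (Fin n)) = Finset.univ from bot_symmDiff _,
        Finset.card_univ, Fintype.card_fin]
      exact hd
    · exact absurd (symmDiff_eq_bot.1 (h1.trans (symmDiff_self _))) hxy

theorem ite_diff {n : ℕ} (p q : Prop) [Decidable p] [Decidable q] (U : Finset (Fin n)) :
    (if p then U else ∅) ∆ (if q then U else ∅) = (if (p ↔ q) then ∅ else U) := by
  by_cases hp : p <;> by_cases hq : q <;> simp only [hp, hq, if_true, if_false, iff_true, iff_false,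
    not_true_eq_false, iff_self]
  · exact symmDiff_self _
  · exact symmDiff_bot _
  · exact bot_symmDiff _
  · exact symmDiff_self _

/-- the upper bound for four codewords -/
theorem chi_upper2 {n d : ℕ} (h1 : 3 * n < 5 * (d + 1)) (h2 : 3 * (d + 1) ≤ 2 * n) :
    (Q n d).Colorable (2 ^ (n - 2)) := by
  classical
  have hn : d + 1 < n := by omega
  let i₁ : Fin n := ⟨0, by omega⟩
  let i₂ : Fin n := ⟨n - 1, by omega⟩
  let a : Fin n := ⟨d + 1, hn⟩
  let b : Fin n := ⟨n - (d + 1), by omega⟩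
  let U : Finset (Fin n) := Finset.Iio a
  let V : Finset (Fin n) := Finset.Ici b
  have hU : U.card = d + 1 := Fin.card_Iio a
  have hV : V.card = d + 1 := by
    have : V.card = n - (n - (d + 1)) := Fin.card_Ici b
    omega
  have hUV : d + 1 ≤ (U ∆ V).card := by
    have h3 : Finset.Iio b ∪ Finset.Ici a ⊆ U ∆ V := by
      intro i hi
      rw [Finset.mem_symmDiff]
      simp only [Finset.mem_union, Finset.mem_Iio, Finset.mem_Ici, Fin.lt_def, Fin.le_def, U, V, a,
        b] at *
      omega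
    have h4 : Disjoint (Finset.Iio b) (Finset.Ici a) := by
      rw [Finset.disjoint_left]
      intro i hi hj
      simp only [Finset.mem_Iio, Finset.mem_Ici, Fin.lt_def, Fin.le_def, a, b] at *
      omega
    have h5 := Finset.card_le_card h3
    rw [Finset.card_union_of_disjoint h4, Fin.card_Iio, Fin.card_Ici] at h5
    simp only [a, b] at h5
    omega
  have u1 : i₁ ∈ U := by simp only [U, Finset.mem_Iio, Fin.lt_def, a, i₁]; omega
  have u2 : i₂ ∉ U := by simp only [U, Finset.mem_Iio, Fin.lt_def, a, i₂]; omega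
  have v1 : i₁ ∉ V := by simp only [V, Finset.mem_Ici, Fin.le_def, b, i₁]; omega
  have v2 : i₂ ∈ V := by simp only [V, Finset.mem_Ici, Fin.le_def, b, i₂]; omega
  have hne : i₂ ≠ i₁ := fun h => u2 (h ▸ u1)
  have h := colorable_of (n := n) (d := d)
    (fun x => x ∆ ((if i₁ ∈ x then U else ∅) ∆ (if i₂ ∈ x then V else ∅)))
    ((Finset.univ.erase i₁).erase i₂).powerset ?_ ?_
  · rw [Finset.card_powerset, Finset.card_erase_of_mem
      (Finset.mem_erase.2 ⟨hne, Finset.mem_univ _⟩),
      Finset.card_erase_of_mem (Finset.mem_univ _), Finset.card_univ, Fintype.card_fin] at h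
    exact h
  · intro x
    rw [Finset.mem_powerset, Finset.subset_erase, Finset.subset_erase]
    refine ⟨⟨Finset.subset_univ _, ?_⟩, ?_⟩
    · by_cases h : i₁ ∈ x <;> by_cases h' : i₂ ∈ x <;>
        simp [Finset.mem_symmDiff, h, h', u1, v1]
    · by_cases h : i₁ ∈ x <;> by_cases h' : i₂ ∈ x <;>
        simp [Finset.mem_symmDiff, h, h', u2, v2]
  · intro x y hxy he
    have h3 := diff_eq he
    rw [symmDiff_symmDiff_symmDiff_comm, ite_diff, ite_diff] at h3
    by_cases hp : (i₁ ∈ x ↔ i₁ ∈ y) <;> by_cases hq : (i₂ ∈ x ↔ i₂ ∈ y)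
    · rw [if_pos hp, if_pos hq] at h3
      exact absurd (symmDiff_eq_bot.1 (h3.trans (symmDiff_self _))) hxy
    · rw [if_pos hp, if_neg hq] at h3
      rw [h3, show ∅ ∆ V = V from bot_symmDiff _, hV]
      exact Nat.lt_succ_self d
    · rw [if_neg hp, if_pos hq] at h3
      rw [h3, show U ∆ ∅ = U from symmDiff_bot _, hU]
      exact Nat.lt_succ_self d
    · rw [if_neg hp, if_neg hq] at h3
      rw [h3]
      exact hUV

/-- **The chromatic number of `Q_n^d` for `d > 3 n / 5 - 1`.** Let `d < n` and `3 n < 5 (d + 1)`. If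
`2 n < 3 (d + 1)`, then the chromatic number of `Q_n^d` is `2^(n-1)`; otherwise it is `2^(n-2)`. -/
theorem result (n d : ℕ) (hd : d < n) (h : 3 * n < 5 * (d + 1)) :
    (2 * n < 3 * (d + 1) → (Q n d).chromaticNumber = ((2 ^ (n - 1) : ℕ) : ℕ∞)) ∧
    (3 * (d + 1) ≤ 2 * n → (Q n d).chromaticNumber = ((2 ^ (n - 2) : ℕ) : ℕ∞)) := by
  constructor
  · intro h1
    refine le_antisymm (chi_upper1 hd).chromaticNumber_le ?_
    rw [SimpleGraph.le_chromaticNumber_iff_colorable]
    intro m hm
    have h2 := chi_lower (n := n) (d := d) (M := 2) (fun T hT => (code T (d + 1) hT).1 h1) m hm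
    obtain ⟨k, rfl⟩ : ∃ k, n = k + 1 := ⟨n - 1, by omega⟩
    rw [pow_succ] at h2
    have h3 : 2 ^ (k + 1 - 1) ≤ m := by
      rw [Nat.add_sub_cancel]
      omega
    exact_mod_cast h3
  · intro h1
    refine le_antisymm (chi_upper2 h h1).chromaticNumber_le ?_
    rw [SimpleGraph.le_chromaticNumber_iff_colorable]
    intro m hm
    have h2 := chi_lower (n := n) (d := d) (M := 4) (fun T hT => (code T (d + 1) hT).2 h) m hm
    obtain ⟨k, rfl⟩ : ∃ k, n = k + 2 := ⟨n - 2, by omega⟩
    rw [pow_add] at h2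
    have h3 : 2 ^ (k + 2 - 2) ≤ m := by
      rw [Nat.add_sub_cancel]
      omega
    exact_mod_cast h3

end Pool.Agent.Results.MP_7d5fe8_co.LargeDistances
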